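import Pool.Agent.Lib.MP_a717c1_al.Forward

/-!
# Cartesian squares without quantum symmetry

For a finite nonempty graph `X`, the Cartesian square `X □ X` has no quantum symmetry if and only if
`X` is connected, has no quantum symmetry, and does not have the complete graph `K₂` as a Cartesian
factor.
-/

namespace Pool.Agent.Results.MP_a717c1_al.CartesianSquare

open SimpleGraph QSym

theorem result : ∀ (V : Type) [Fintype V] [Nonempty V] (X : SimpleGraph V),
    NoQuantumSymmetry (X □ X) ↔
      X.Connected ∧ NoQuantumSymmetry X ∧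
        ¬ ∃ (W : Type) (Y : SimpleGraph W), Nonempty (X ≃g ((⊤ : SimpleGraph Bool) □ Y)) := by
  intro V _ _ X
  constructor
  · intro h
    refine ⟨?_, ?_, ?_⟩
    · by_contra hc
      exact not_noQS_of_disjAut (disjAut_of_not_connected hc) h
    · rw [noQS_iff] at h ⊢
      intro A _
      exact (h A).of_square
    · rintro ⟨W, Y, ⟨e⟩⟩
      exact not_noQS_of_disjAut (disjAut_of_K2 e) h
  · rintro ⟨h1, h2, h3⟩
    have h4 : ¬ DisjAut X := fun h => not_noQS_of_disjAut h h2
    have h5 : ∀ φ c, ¬ IsK2 X φ c := fun φ c h => h3 h.iso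
    rw [noQS_iff] at h2 ⊢
    intro A _
    exact rig_square X h1 h5 h4 (h2 A)

end Pool.Agent.Results.MP_a717c1_al.CartesianSquare
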