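import Pool.Agent.Lib.MP_a717c1_al.DQ.Final
import Pool.Agent.Lib.MP_a717c1_al.DQ.Nec
import Pool.Agent.Lib.MP_a717c1_al.DQ.Skel
import Pool.Agent.Lib.MP_a717c1_al.DQ.Blk
import Pool.Agent.Lib.MP_a717c1_al.DQ.Cls
import Pool.Agent.Lib.MP_a717c1_al.DQ.K2d
import Pool.Agent.Lib.MP_a717c1_al.DQ.Phi
import Pool.Agent.Lib.MP_a717c1_al.DQ.NoTw

/-!
# Direct squares without quantum symmetry

For a finite graph `X` with at least two vertices, the direct square `X × X` has no quantum symmetry
if and only if `X` is connected, not bipartite, no two vertices of `X` have the same neighbours, and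
`X` has no quantum symmetry.
-/

namespace Pool.Agent.Results.MP_a717c1_al.DirectSquare

open SimpleGraph QSym

theorem result : ∀ (V : Type) [Fintype V] (X : SimpleGraph V),
    NoQuantumSymmetry (dprod X X) ↔
      (Fintype.card V ≤ 1 ∨
        (X.Connected ∧ ¬ X.Colorable 2 ∧ TwinFree X ∧ NoQuantumSymmetry X)) := by
  intro V _ X
  exact dsquare_full52 stNec (stNot stK2 (stPhi stLemK)) stBlk_52 skel stCls V X

end Pool.Agent.Results.MP_a717c1_al.DirectSquare
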